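import Pool.Agent.Q31.GLW.Stm

/-!
# Project GLW, job CNT: the number of the pairs of a subspace and an automorphism of it
-/

set_option autoImplicit false

namespace Pool.Agent.Q278.GLW

open Pool.Agent.Q31.GLW Module Cardinal Submodule

/-- the graph of the automorphism -/
def gph {F V : Type} [Field F] [AddCommGroup V] [Module F V]
    (x : Σ U : Submodule F V, (U ≃ₗ[F] U)) : Set (V × V) :=
  {z | ∃ u : x.1, z = ((u : V), ((x.2 u : x.1) : V))}

lemma gph_inj {F V : Type} [Field F] [AddCommGroup V] [Module F V] :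
    Function.Injective (gph (F := F) (V := V)) := by
  rintro ⟨U, g⟩ ⟨U', g'⟩ h
  have key : ∀ z : V × V, (∃ u : U, z = ((u : V), ((g u : U) : V))) ↔
      (∃ u : U', z = ((u : V), ((g' u : U') : V))) := fun z => by
    have := Set.ext_iff.1 h z
    exact this
  have hU : U = U' := by
    ext v
    constructor
    · intro hv
      obtain ⟨u, hu⟩ := (key (v, ((g ⟨v, hv⟩ : U) : V))).1 ⟨⟨v, hv⟩, rfl⟩
      have h1 : v = (u : V) := congrArg Prod.fst hu
      rw [h1]
      exact u.2
    · intro hv
      obtain ⟨u, hu⟩ := (key (v, ((g' ⟨v, hv⟩ : U') : V))).2 ⟨⟨v, hv⟩, rfl⟩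
      have h1 : v = (u : V) := congrArg Prod.fst hu
      rw [h1]
      exact u.2
  subst hU
  have hg : g = g' := by
    refine LinearEquiv.ext fun u => ?_
    obtain ⟨u', hu⟩ := (key ((u : V), ((g u : U) : V))).1 ⟨u, rfl⟩
    have h1 : u = u' := Subtype.ext (congrArg Prod.fst hu)
    have h2 : ((g u : U) : V) = ((g' u' : U) : V) := congrArg Prod.snd hu
    rw [← h1] at h2
    exact Subtype.ext h2
  rw [hg]

theorem t_CNT : S_CNT := by
  intro F V _ _ _ _
  have h1 : #(Σ U : Submodule F V, (U ≃ₗ[F] U)) ≤ #(Set (V × V)) := mk_le_of_injective gph_inj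
  refine h1.trans ?_
  rw [mk_set, ← two_power_aleph0]
  exact power_le_power_left two_ne_zero mk_le_aleph0

end Pool.Agent.Q278.GLW
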